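import Pool.Agent.P8H39.TI.Stm5
import Pool.Agent.P8H75.TI.Num2

set_option autoImplicit false

/-! # Package NUM5 of project TI (from the proof of NUM2 by helper75) -/

namespace Pool.Agent.P8H80.TI

open Finset Polynomial Pool.Agent.P8H39.TI
open Pool.Agent.P8H76.TI (PP KK rr AA y_pos y_lt y_zero w_pos injOn ev_PP_zero ev_PP_big ev_PP_node
  deg_PP AA_nonneg KK_nonneg)
open Pool.Agent.P8H75.TI

noncomputable section

theorem TT_nonneg (t m κ N : ℕ) : 0 ≤ TT t m κ N :=
  sum_nonneg fun _ _ => div_nonneg (by positivity) (Nat.cast_nonneg _)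

/-- NUM5 -/
theorem t_NUM5 (hA : S_WA) (hB : S_WB) (hST : S_STAR) (hST5 : S_STAR5) (hHB : S_HB) (hPOL : S_POL) :
    S_NUM5 := by
  classical
  intro n k t i ht htk3 hn hi1 hit
  have htk : t + 2 ≤ k := by omega
  have hk : 2 * k ≤ n := two_k ht (by omega) hn
  obtain ⟨Q, hQd, hQth⟩ := wil_poly (n := n) (k := k) (t := t) (by omega) hk
  obtain ⟨hW1, hW2⟩ := hA n k t ht (by omega) hk
  have hQ1 : ∀ j, 1 ≤ j → j ≤ t → ev n k Q j = -1 := fun j h1 h2 => by
    rw [hQth j (by omega)]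
    exact hW1 j h1 h2
  have htk' : t < k := by omega
  -- `Q` is the sum of all basis polynomials
  have hQ : Q = PP n k t (fun _ => 1) := by
    refine Lagrange.eq_interpolate_of_eval_eq _ (injOn hk htk') ?_ fun i hi => ?_
    · rwa [Nat.card_Icc, Nat.add_sub_cancel]
    · rw [mem_Icc] at hi
      have h1 := hQ1 i hi.1 hi.2
      rw [ev] at h1
      have h2 := (w_pos (n := n) (k := k) i).ne'
      have h3 : (-1 : ℝ) ^ i * (-1 : ℝ) ^ i = 1 := by rw [← mul_pow]; norm_num
      rw [one_mul, pow_succ, eq_div_iff h2]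
      linear_combination (-1 : ℝ) ^ i * h1 - (w n k i * eval (y n i) Q) * h3
  set θ : ℕ → ℝ := fun l => if l = i then 1 else 0 with hθ
  have hiI : i ∈ Icc 1 t := mem_Icc.2 ⟨hi1, hit⟩
  have hA0 : ∀ l ∈ Icc 1 t, 0 ≤ AA n k t l := fun l hl => by
    rw [mem_Icc] at hl
    exact AA_nonneg hk htk' hl.1 hl.2
  have hP0 : ev n k (PP n k t θ) 0 = AA n k t i := by
    rw [ev_PP_zero, sum_eq_single i]
    · rw [hθ]; simp
    · intro l _ hl
      rw [hθ]; simp [hl]
    · intro h; exact absurd hiI h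
  have hQ0 : 0 ≤ ev n k Q 0 := by
    rw [hQ, ev_PP_zero]
    exact sum_nonneg fun l hl => mul_nonneg zero_le_one (hA0 l hl)
  have hQt1 : 0 ≤ ev n k Q (t + 1) := by
    rw [hQth _ (by omega), hW2 1 le_rfl (by omega)]
    have hTT := TT_nonneg t 1 (k - t) (n - k - t)
    simpa using hTT
  refine ⟨PP n k t θ, Q, deg_PP hk htk' θ, hQd, hQ1, ?_, ?_, hQ0, hQt1, ?_⟩
  · intro j h1 hj
    rw [ev_PP_node hk htk' h1 hj, hθ]
    simp only
    split_ifs <;> simp
  · rw [hP0]
    exact hA0 i hiI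
  intro j htj hj
  have hPj : ev n k (PP n k t θ) j =
      (-1 : ℝ) ^ (j + t + 1) * (KK n k t j * (rr n j i * AA n k t i)) := by
    rw [ev_PP_big hk htj hj, sum_eq_single i]
    · rw [hθ]; simp
    · intro l _ hl
      rw [hθ]; simp [hl]
    · intro h; exact absurd hiI h
  obtain ⟨m, rfl⟩ : ∃ m, j = t + m := ⟨j - t, by omega⟩
  have hm1 : 1 ≤ m := by omega
  have hyi0 := y_pos hk hi1 (by omega : i ≤ k)
  have hyij := y_lt hk (by omega : i < t + m) hj
  have hyt0 := y_pos hk ht (by omega : t ≤ k)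
  have hytj := y_lt hk (by omega : t < t + m) hj
  have hK := KK_nonneg (n := n) hk htj hj
  have hri : 0 ≤ rr n (t + m) i := div_nonneg hyi0.le (by linarith)
  have hAi := hA0 i hiI
  -- parameters
  obtain ⟨κ, rfl⟩ : ∃ κ, k = κ + t := ⟨k - t, by omega⟩
  rw [Nat.add_sub_cancel] at hn
  have hmul : t * κ + t + κ + 1 ≤ n := by
    have : (t + 1) * (κ + 1) = t * κ + t + κ + 1 := by ring
    omega
  have hmul2 : t + κ ≤ t * κ + 1 := by
    obtain ⟨a, rfl⟩ : ∃ a, t = a + 1 := ⟨t - 1, by omega⟩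
    obtain ⟨b, rfl⟩ : ∃ b, κ = b + 1 := ⟨κ - 1, by omega⟩
    have : (a + 1) * (b + 1) = a * b + a + b + 1 := by ring
    omega
  obtain ⟨N, hN⟩ : ∃ N, n = N + κ + 2 * t := ⟨n - κ - 2 * t, by omega⟩
  have hNt : t * (κ - 1) + 1 ≤ N := by
    have : t * (κ - 1) = t * κ - t := by rw [Nat.mul_sub, mul_one]
    have h3 : t ≤ t * κ := Nat.le_mul_of_pos_right _ (by omega)
    omega
  have hκN : κ ≤ N := by omega
  have hmκ : m ≤ κ := by omega
  have hQj : ev n (κ + t) Q (t + m) = (-1 : ℝ) ^ (m - 1) * TT t m κ N := by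
    rw [hQth _ hj, hW2 m hm1 hj, Nat.add_sub_cancel, show n - (κ + t) - t = N by omega]
  rcases Nat.even_or_odd m with hpar | hpar
  · -- `m` even
    have hs1 : (-1 : ℝ) ^ (t + m + t + 1) = -1 := by
      have : Odd (t + m + t + 1) := by
        obtain ⟨a, ha⟩ := hpar
        exact ⟨t + a, by omega⟩
      exact this.neg_one_pow
    have hs2 : (-1 : ℝ) ^ (m - 1) = -1 := by
      have : Odd (m - 1) := by
        obtain ⟨a, ha⟩ := hpar
        exact ⟨a - 1, by omega⟩
      exact this.neg_one_pow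
    have hm2 : 2 ≤ m := by
      obtain ⟨a, ha⟩ := hpar
      omega
    have hT1 := hB t m κ N ht hm2 hmκ hNt hκN
    have h1 : 0 ≤ 1 + ev n (κ + t) Q (t + m) := by
      rw [hQj, hs2]; linarith
    refine ⟨by linarith, ?_⟩
    rw [if_neg (by omega : ¬ t + m = t + 1), sub_zero]
    have h2 : ev n (κ + t) (PP n (κ + t) t θ) (t + m) ≤ 0 := by
      rw [hPj, hs1]
      have := mul_nonneg hK (mul_nonneg hri hAi)
      linarith
    calc ev n (κ + t) (PP n (κ + t) t θ) (t + m) * (1 + ev n (κ + t) Q 0) ≤ 0 :=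
          mul_nonpos_of_nonpos_of_nonneg h2 (by linarith)
      _ ≤ _ := by
          rw [hP0]
          exact mul_nonneg hAi (by linarith)
  · have hs1 : (-1 : ℝ) ^ (t + m + t + 1) = 1 := by
      have : Even (t + m + t + 1) := by
        obtain ⟨a, ha⟩ := hpar
        exact ⟨t + a + 1, by omega⟩
      exact this.neg_one_pow
    have hs2 : (-1 : ℝ) ^ (m - 1) = 1 := by
      have : Even (m - 1) := by
        obtain ⟨a, ha⟩ := hpar
        exact ⟨a, by omega⟩
      exact this.neg_one_pow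
    have hTT : 0 ≤ TT t m κ N := TT_nonneg t m κ N
    rw [hPj, hs1, hQj, hs2, hP0, one_mul, one_mul]
    refine ⟨by linarith, ?_⟩
    -- monotonicity
    have hrr : rr n (t + m) i ≤ rr n (t + m) t := by
      rw [rr, rr, div_le_div_iff₀ (by linarith) (by linarith)]
      have hle : y n i ≤ y n t := Pool.Agent.P8H76.TI.y_le hk hit (by omega)
      nlinarith
    have hone := one_add_ev hHB hPOL (by omega : t ≤ κ + t) hk hQd hQ1
    rw [Nat.add_sub_cancel] at hone
    set G : ℝ := 2 * (1 + TT t m κ N) - (if t + m = t + 1 then (1 : ℝ) else 0) with hG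
    have hstar : (κ.descFactorial m : ℝ) * ((t + m - 1).choose m : ℝ) * ((N : ℝ) + κ + t + 1) *
        ((N + κ + t - m).descFactorial (t - 1) : ℝ) ≤ G * ((N + t).descFactorial (t + m) : ℝ) := by
      by_cases hm : m = 1
      · subst hm
        have h5 := hST5 t κ N ht (by omega) hNt
        rw [hG, if_pos rfl, Nat.descFactorial_one, Nat.add_sub_cancel, Nat.choose_one_right]
        refine h5.trans (le_of_eq ?_)
        ring
      · rw [hG, if_neg (by omega : ¬ t + m = t + 1), sub_zero]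
        exact hST t m κ N ht hm1 hmκ (by omega) hNt
    clear_value G
    obtain ⟨s, rfl⟩ : ∃ s, t = s + 1 := ⟨t - 1, by omega⟩
    have hcf := const_form (s := s) hm1 hmκ hκN
    rw [← hN] at hcf
    rw [show n - (s + 1) = N + κ + (s + 1) by omega] at hone
    rw [show s + 1 + m - 1 = s + m by omega, Nat.add_sub_cancel] at hstar
    push_cast at hstar hcf hone
    have hc0 : (0 : ℝ) < ((N + κ + (s + 1)).choose κ : ℝ) := by
      exact_mod_cast Nat.choose_pos (by omega)
    have hDF : (0 : ℝ) < ((N + (s + 1)).descFactorial (s + 1 + m) : ℝ) := by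
      exact_mod_cast Nat.descFactorial_pos.2 (by omega)
    have hmain : KK n (κ + (s + 1)) (s + 1) (s + 1 + m) * rr n (s + 1 + m) (s + 1) *
        (1 + ev n (κ + (s + 1)) Q 0) ≤ G := by
      have h1 : (KK n (κ + (s + 1)) (s + 1) (s + 1 + m) * rr n (s + 1 + m) (s + 1) *
          (1 + ev n (κ + (s + 1)) Q 0)) * ((N + (s + 1)).descFactorial (s + 1 + m) : ℝ) =
          (κ.descFactorial m : ℝ) * ((s + m).choose m : ℝ) *
            ((N : ℝ) + κ + (s + 1) + 1) * ((N + κ + (s + 1) - m).descFactorial s : ℝ) := by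
        refine mul_left_cancel₀ hc0.ne' ?_
        rw [← hcf, ← hone]
        ring
      refine le_of_mul_le_mul_right ?_ hDF
      rw [h1]
      exact hstar
    have hKr : KK n (κ + (s + 1)) (s + 1) (s + 1 + m) * rr n (s + 1 + m) i ≤
        KK n (κ + (s + 1)) (s + 1) (s + 1 + m) * rr n (s + 1 + m) (s + 1) :=
      mul_le_mul_of_nonneg_left hrr hK
    have hev0 : 0 ≤ 1 + ev n (κ + (s + 1)) Q 0 := by linarith
    calc KK n (κ + (s + 1)) (s + 1) (s + 1 + m) *
          (rr n (s + 1 + m) i * AA n (κ + (s + 1)) (s + 1) i) * (1 + ev n (κ + (s + 1)) Q 0)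
        = (KK n (κ + (s + 1)) (s + 1) (s + 1 + m) * rr n (s + 1 + m) i *
          (1 + ev n (κ + (s + 1)) Q 0)) * AA n (κ + (s + 1)) (s + 1) i := by ring
      _ ≤ (KK n (κ + (s + 1)) (s + 1) (s + 1 + m) * rr n (s + 1 + m) (s + 1) *
          (1 + ev n (κ + (s + 1)) Q 0)) * AA n (κ + (s + 1)) (s + 1) i :=
          mul_le_mul_of_nonneg_right (mul_le_mul_of_nonneg_right hKr hev0) hAi
      _ ≤ G * AA n (κ + (s + 1)) (s + 1) i :=
          mul_le_mul_of_nonneg_right hmain hAi
      _ = _ := by rw [mul_comm, hG]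

end

end Pool.Agent.P8H80.TI
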